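import Mathlib

set_option autoImplicit false

/-!
The combinatorial core: two sequences of affine functions, stabilisation along countably generated
filters.
-/

namespace Q99.IE

open Filter Topology

/-- Values of the parameter for which a point of `S` obstructs. -/
def LL {E : Type*} (f g : ℕ → E → ℝ) (S : Set E) (F : Filter ℕ) : Set ℝ :=
  {t | ∃ ξ ∈ S, ∃ c > (0 : ℝ), ∃ᶠ n in F, c ≤ t * f n ξ + (1 - t) * g n ξ}

lemma LL_mono {E : Type*} (f g : ℕ → E → ℝ) (S : Set E) {F F' : Filter ℕ} (h : F' ≤ F) :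
    LL f g S F' ⊆ LL f g S F := by
  rintro t ⟨ξ, hξ, c, hc, hf⟩
  exact ⟨ξ, hξ, c, hc, hf.filter_mono h⟩

lemma LL_open {E : Type*} (f g : ℕ → E → ℝ) (S : Set E) (F : Filter ℕ)
    (hfb : ∀ ξ, ∃ R, ∀ n, |f n ξ| ≤ R) (hgb : ∀ ξ, ∃ R, ∀ n, |g n ξ| ≤ R) :
    IsOpen (LL f g S F) := by
  rw [Metric.isOpen_iff]
  rintro t ⟨ξ, hξ, c, hc, hf⟩
  obtain ⟨R, hR⟩ := hfb ξ
  obtain ⟨R', hR'⟩ := hgb ξ
  have hRn : 0 ≤ R := (abs_nonneg _).trans (hR 0)
  have hRn' : 0 ≤ R' := (abs_nonneg _).trans (hR' 0)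
  refine ⟨c / (2 * (R + R' + 1)), by positivity, fun t' ht' => ?_⟩
  refine ⟨ξ, hξ, c / 2, by positivity, hf.mono fun n hn => ?_⟩
  rw [Metric.mem_ball, Real.dist_eq] at ht'
  have h1 : |(t' - t) * (f n ξ - g n ξ)| ≤ c / 2 := by
    rw [abs_mul]
    have h2 : |f n ξ - g n ξ| ≤ R + R' + 1 := by
      have := abs_sub (f n ξ) (g n ξ)
      have := hR n
      have := hR' n
      linarith
    calc |t' - t| * |f n ξ - g n ξ| ≤ c / (2 * (R + R' + 1)) * (R + R' + 1) :=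
          mul_le_mul ht'.le h2 (abs_nonneg _) (by positivity)
      _ = c / 2 := by field_simp
  have h3 := neg_le_of_abs_le h1
  nlinarith

/-- Admissible filters. -/
def Adm (F : Filter ℕ) : Prop := F ≤ atTop ∧ F.NeBot ∧ F.IsCountablyGenerated

lemma stabilise {E : Type*} (f g : ℕ → E → ℝ) (S : Set E) :
    ∃ F : Filter ℕ, Adm F ∧ ∀ q : ℚ, (q : ℝ) ∈ LL f g S F → ∀ F' : Filter ℕ, Adm F' → F' ≤ F →
      (q : ℝ) ∈ LL f g S F' := by
  classical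
  obtain ⟨e, he⟩ := exists_surjective_nat ℚ
  have step : ∀ (F : {F : Filter ℕ // Adm F}) (k : ℕ), ∃ F₁ : {F : Filter ℕ // Adm F},
      F₁.1 ≤ F.1 ∧ ((e k : ℝ) ∈ LL f g S F₁.1 → ∀ F' : Filter ℕ, Adm F' → F' ≤ F.1 →
        (e k : ℝ) ∈ LL f g S F') := by
    intro F k
    by_cases h : ∃ F' : Filter ℕ, Adm F' ∧ F' ≤ F.1 ∧ (e k : ℝ) ∉ LL f g S F'
    · obtain ⟨F', h1, h2, h3⟩ := h
      exact ⟨⟨F', h1⟩, h2, fun h4 => absurd h4 h3⟩
    · push Not at h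
      exact ⟨F, le_rfl, fun _ F' h1 h2 => h F' h1 h2⟩
  choose nxt hn1 hn2 using step
  have h0 : Adm (atTop : Filter ℕ) := ⟨le_rfl, inferInstance, inferInstance⟩
  let G : ℕ → {F : Filter ℕ // Adm F} := fun k => Nat.rec ⟨atTop, h0⟩ (fun k F => nxt F k) k
  have hG : ∀ k, G (k + 1) = nxt (G k) k := fun k => rfl
  have hanti : Antitone fun k => (G k).1 := antitone_nat_of_succ_le fun k => by
    rw [hG]; exact hn1 _ _
  refine ⟨⨅ k, (G k).1, ⟨(iInf_le _ 0).trans (G 0).2.1, ?_, ?_⟩, ?_⟩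
  · have : ∀ k, ((G k).1).NeBot := fun k => (G k).2.2.1
    exact iInf_neBot_of_directed (fun i j => ⟨max i j, hanti (le_max_left _ _),
      hanti (le_max_right _ _)⟩) this
  · have : ∀ k, ((G k).1).IsCountablyGenerated := fun k => (G k).2.2.2
    exact Filter.iInf.isCountablyGenerated _
  · intro q hq F' hF' hle
    obtain ⟨k, rfl⟩ := he q
    have h1 : (e k : ℝ) ∈ LL f g S (G (k + 1)).1 := LL_mono f g S (iInf_le _ (k + 1)) hq
    rw [hG] at h1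
    exact hn2 (G k) k h1 F' hF' (hle.trans (iInf_le _ k))

lemma exists_lim (U : Ultrafilter ℕ) (u : ℕ → ℝ) (R : ℝ) (h : ∀ n, |u n| ≤ R) :
    ∃ l, Tendsto u U (𝓝 l) := by
  have hc : IsCompact (Set.Icc (-R) R) := isCompact_Icc
  obtain ⟨l, -, hl⟩ := hc.ultrafilter_le_nhds (U.map u) (by
    rw [le_principal_iff]
    exact Filter.univ_mem' (f := (U : Filter ℕ)) (s := u ⁻¹' Set.Icc (-R) R)
      fun n => abs_le.1 (h n))
  exact ⟨l, hl⟩

/-- The core lemma. -/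
theorem core {E : Type*} [AddCommGroup E] [Module ℝ E] (A B : Set E) (hC : Convex ℝ (A ∪ B))
    (f g : ℕ → E → ℝ)
    (hf : ∀ n (ξ ζ : E) (a b : ℝ), a + b = 1 → f n (a • ξ + b • ζ) = a * f n ξ + b * f n ζ)
    (hg : ∀ n (ξ ζ : E) (a b : ℝ), a + b = 1 → g n (a • ξ + b • ζ) = a * g n ξ + b * g n ζ)
    (hfb : ∀ ξ, ∃ R, ∀ n, |f n ξ| ≤ R) (hgb : ∀ ξ, ∃ R, ∀ n, |g n ξ| ≤ R)
    (hA : ∀ ξ ∈ A, ∀ᶠ n in atTop, f n ξ ≤ 0) (hB : ∀ ξ ∈ B, ∀ᶠ n in atTop, g n ξ ≤ 0) :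
    ∃ F : Filter ℕ, Adm F ∧ ∃ t ∈ Set.Icc (0 : ℝ) 1, ∀ ξ ∈ A ∪ B, ∀ c > (0 : ℝ),
      ∀ᶠ n in F, t * f n ξ + (1 - t) * g n ξ < c := by
  by_contra hcon
  have hcov : ∀ F : Filter ℕ, Adm F → Set.Icc (0 : ℝ) 1 ⊆ LL f g A F ∪ LL f g B F := by
    intro F hF t ht
    by_contra hno
    apply hcon
    refine ⟨F, hF, t, ht, fun ξ hξ c hc => ?_⟩
    by_contra hfr
    rw [Filter.not_eventually] at hfr
    have hfr' : ∃ᶠ n in F, c ≤ t * f n ξ + (1 - t) * g n ξ := hfr.mono fun n hn => not_lt.1 hn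
    apply hno
    rcases hξ with hξ | hξ
    · exact Or.inl ⟨ξ, hξ, c, hc, hfr'⟩
    · exact Or.inr ⟨ξ, hξ, c, hc, hfr'⟩
  obtain ⟨F, hF, hst⟩ := stabilise f g B
  have h1A : (1 : ℝ) ∉ LL f g A F := by
    rintro ⟨ξ, hξ, c, hc, h⟩
    have := ((hA ξ hξ).filter_mono hF.1)
    obtain ⟨n, hn1, hn2⟩ := (h.and_eventually this).exists
    linarith
  have h0B : (0 : ℝ) ∉ LL f g B F := by
    rintro ⟨ξ, hξ, c, hc, h⟩
    have := ((hB ξ hξ).filter_mono hF.1)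
    obtain ⟨n, hn1, hn2⟩ := (h.and_eventually this).exists
    linarith
  have hoA := LL_open f g A F hfb hgb
  have hoB := LL_open f g B F hfb hgb
  have hcovF := hcov F hF
  have h0A : (0 : ℝ) ∈ LL f g A F := (hcovF (by simp)).resolve_right h0B
  have h1B : (1 : ℝ) ∈ LL f g B F := (hcovF (by simp)).resolve_left h1A
  obtain ⟨t, ht, htA, htB⟩ := isPreconnected_Icc (LL f g A F) (LL f g B F) hoA hoB hcovF
    ⟨0, by simp, h0A⟩ ⟨1, by simp, h1B⟩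
  have ht0 : 0 < t := lt_of_le_of_ne ht.1 fun e => h0B (e ▸ htB)
  have ht1 : t < 1 := lt_of_le_of_ne ht.2 fun e => h1A (e ▸ htA)
  obtain ⟨q, ⟨⟨hqA, hqB⟩, hq0, hq1⟩⟩ := Rat.denseRange_cast.exists_mem_open
    ((hoA.inter hoB).inter isOpen_Ioo) ⟨t, ⟨htA, htB⟩, ht0, ht1⟩
  obtain ⟨ξ, hξ, c, hc, h1⟩ := hqA
  set F₁ : Filter ℕ := F ⊓ 𝓟 {n | c ≤ (q : ℝ) * f n ξ + (1 - q) * g n ξ} with hF₁
  have hAdm₁ : Adm F₁ := by
    have := hF.2.2
    refine ⟨inf_le_left.trans hF.1, ?_, inferInstance⟩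
    exact Filter.frequently_mem_iff_neBot.1 h1
  obtain ⟨ζ, hζ, c', hc', h2⟩ := hst q hqB F₁ hAdm₁ inf_le_left
  have hne : (F₁ ⊓ 𝓟 {n | c' ≤ (q : ℝ) * f n ζ + (1 - q) * g n ζ}).NeBot :=
    Filter.frequently_mem_iff_neBot.1 h2
  let U : Ultrafilter ℕ := Ultrafilter.of (F₁ ⊓ 𝓟 {n | c' ≤ (q : ℝ) * f n ζ + (1 - q) * g n ζ})
  have hU : (U : Filter ℕ) ≤ F₁ ⊓ 𝓟 {n | c' ≤ (q : ℝ) * f n ζ + (1 - q) * g n ζ} :=
    Ultrafilter.of_le _
  have hUtop : (U : Filter ℕ) ≤ atTop := hU.trans (inf_le_left.trans (inf_le_left.trans hF.1))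
  have hUξ : ∀ᶠ n in (U : Filter ℕ), c ≤ (q : ℝ) * f n ξ + (1 - q) * g n ξ := by
    have : (U : Filter ℕ) ≤ 𝓟 {n | c ≤ (q : ℝ) * f n ξ + (1 - q) * g n ξ} :=
      hU.trans (inf_le_left.trans inf_le_right)
    exact le_principal_iff.1 this
  have hUζ : ∀ᶠ n in (U : Filter ℕ), c' ≤ (q : ℝ) * f n ζ + (1 - q) * g n ζ := by
    have : (U : Filter ℕ) ≤ 𝓟 {n | c' ≤ (q : ℝ) * f n ζ + (1 - q) * g n ζ} :=
      hU.trans inf_le_right
    exact le_principal_iff.1 this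
  have lim : ∀ (u : ℕ → E → ℝ) (P : E), (∃ R, ∀ n, |u n P| ≤ R) →
      ∃ l, Tendsto (fun n => u n P) U (𝓝 l) := fun u P ⟨R, hR⟩ => exists_lim U _ R hR
  obtain ⟨a, ha⟩ := lim f ξ (hfb ξ)
  obtain ⟨b, hb⟩ := lim g ξ (hgb ξ)
  obtain ⟨a', ha'⟩ := lim f ζ (hfb ζ)
  obtain ⟨b', hb'⟩ := lim g ζ (hgb ζ)
  have ha0 : a ≤ 0 := le_of_tendsto ha ((hA ξ hξ).filter_mono hUtop)
  have hb0' : b' ≤ 0 := le_of_tendsto hb' ((hB ζ hζ).filter_mono hUtop)
  have hq : c ≤ q * a + (1 - q) * b :=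
    ge_of_tendsto ((ha.const_mul _).add (hb.const_mul _)) hUξ
  have hq' : c' ≤ q * a' + (1 - q) * b' :=
    ge_of_tendsto ((ha'.const_mul _).add (hb'.const_mul _)) hUζ
  have ha1' : 0 < a' := by
    by_contra hneg
    push Not at hneg
    have h3 : (q : ℝ) * a' ≤ 0 := mul_nonpos_of_nonneg_of_nonpos hq0.le hneg
    have h4 : (1 - (q : ℝ)) * b' ≤ 0 := mul_nonpos_of_nonneg_of_nonpos (by linarith) hb0'
    linarith
  -- the point on the segment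
  set m := min c c' with hm
  have hm0 : 0 < m := lt_min hc hc'
  set w := min (m / 2) a' with hw
  have hw0 : 0 < w := lt_min (by positivity) ha1'
  set r := (w - a) / (a' - a) with hr
  have hden : 0 < a' - a := by linarith
  have hr0 : 0 ≤ r := div_nonneg (by linarith) hden.le
  have hr1 : r ≤ 1 := by
    rw [hr, div_le_one hden]
    have := min_le_right (m / 2) a'
    linarith
  have hP : (1 - r) • ξ + r • ζ ∈ A ∪ B :=
    hC (Or.inl hξ) (Or.inr hζ) (by linarith) hr0 (by ring)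
  have hFr : (1 - r) * a + r * a' = w := by
    rw [hr]; field_simp; ring
  have hlimf : Tendsto (fun n => f n ((1 - r) • ξ + r • ζ)) U (𝓝 ((1 - r) * a + r * a')) := by
    have := (ha.const_mul (1 - r)).add (ha'.const_mul r)
    refine this.congr fun n => (hf n ξ ζ _ _ (by ring)).symm
  have hlimg : Tendsto (fun n => g n ((1 - r) • ξ + r • ζ)) U (𝓝 ((1 - r) * b + r * b')) := by
    have := (hb.const_mul (1 - r)).add (hb'.const_mul r)
    refine this.congr fun n => (hg n ξ ζ _ _ (by ring)).symm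
  rcases hP with hP | hP
  · have h5 := le_of_tendsto hlimf ((hA _ hP).filter_mono hUtop)
    linarith
  · have h5 := le_of_tendsto hlimg ((hB _ hP).filter_mono hUtop)
    have h6 : m ≤ (q : ℝ) * ((1 - r) * a + r * a') + (1 - q) * ((1 - r) * b + r * b') := by
      have h7 : (1 - r) * m + r * m ≤ (1 - r) * (q * a + (1 - q) * b) +
          r * (q * a' + (1 - q) * b') :=
        add_le_add (mul_le_mul_of_nonneg_left ((min_le_left _ _).trans hq) (by linarith))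
          (mul_le_mul_of_nonneg_left ((min_le_right _ _).trans hq') hr0)
      nlinarith
    rw [hFr] at h6
    have h8 : (1 - (q : ℝ)) * ((1 - r) * b + r * b') ≤ 0 :=
      mul_nonpos_of_nonneg_of_nonpos (by linarith) h5
    have h9 : (q : ℝ) * w ≤ m / 2 := by
      have := min_le_left (m / 2) a'
      nlinarith
    linarith

end Q99.IE
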