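import Mathlib

set_option autoImplicit false

/-!
The dual as a real locally convex space with the weak-star topology.
-/

namespace Q99.IE

open Filter Topology

variable (𝕜 : Type*) [RCLike 𝕜] (X : Type*) [NormedAddCommGroup X] [NormedSpace 𝕜 X]

/-- The dual space, as a real vector space with the weak-star topology. -/
def DW : Type _ := StrongDual 𝕜 X

instance : AddCommGroup (DW 𝕜 X) := inferInstanceAs (AddCommGroup (StrongDual 𝕜 X))
noncomputable instance : Module ℝ (DW 𝕜 X) := inferInstanceAs (Module ℝ (StrongDual 𝕜 X))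

variable {𝕜 X}

/-- The identity to `DW`. -/
noncomputable def toDW : StrongDual 𝕜 X →ₗ[ℝ] DW 𝕜 X := LinearMap.id (R := ℝ) (M := StrongDual 𝕜 X)

/-- The identity from `DW`. -/
noncomputable def ofDW : DW 𝕜 X →ₗ[ℝ] StrongDual 𝕜 X := LinearMap.id (R := ℝ) (M := StrongDual 𝕜 X)

@[simp] lemma of_to (ξ : StrongDual 𝕜 X) : ofDW (toDW ξ) = ξ := rfl
@[simp] lemma to_of (ξ : DW 𝕜 X) : toDW (ofDW ξ) = ξ := rfl

/-- Real part of the evaluation. -/
noncomputable def evR (x : X) : DW 𝕜 X →ₗ[ℝ] ℝ where
  toFun w := RCLike.re (ofDW w x)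
  map_add' v w := by rw [map_add, add_apply, map_add]
  map_smul' r w := by
    rw [map_smul]
    simp [RCLike.smul_re]

lemma evR_apply (x : X) (w : DW 𝕜 X) : evR x w = RCLike.re (ofDW w x) := rfl

noncomputable instance : TopologicalSpace (DW 𝕜 X) :=
  ⨅ x : X, TopologicalSpace.induced (evR (𝕜 := 𝕜) x) inferInstance

instance : IsTopologicalAddGroup (DW 𝕜 X) :=
  topologicalAddGroup_iInf fun x => topologicalAddGroup_induced (evR (𝕜 := 𝕜) x)

instance : ContinuousSMul ℝ (DW 𝕜 X) :=
  continuousSMul_iInf fun x => continuousSMul_induced (evR (𝕜 := 𝕜) x)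

instance : LocallyConvexSpace ℝ (DW 𝕜 X) :=
  LocallyConvexSpace.iInf fun x => LocallyConvexSpace.induced (evR (𝕜 := 𝕜) x)

lemma continuous_evR (x : X) : Continuous (evR (𝕜 := 𝕜) x) :=
  continuous_iInf_dom (i := x) continuous_induced_dom

lemma continuous_to_DW {Y : Type*} [TopologicalSpace Y] {f : Y → DW 𝕜 X}
    (h : ∀ x, Continuous fun y => evR x (f y)) : Continuous f :=
  continuous_iInf_rng.2 fun x => continuous_induced_rng.2 (h x)

lemma re_I_smul (ξ : StrongDual 𝕜 X) (x : X) :
    RCLike.re (ξ ((RCLike.I : 𝕜) • x)) = -RCLike.im (ξ x) := by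
  rw [map_smul, smul_eq_mul, RCLike.I_mul_re]

instance : T2Space (DW 𝕜 X) := by
  refine ⟨fun v w hvw => ?_⟩
  have : ∃ x : X, RCLike.re (ofDW v x) ≠ RCLike.re (ofDW w x) := by
    by_contra hcon
    push Not at hcon
    apply hvw
    have : ofDW v = ofDW w := by
      ext x
      apply RCLike.ext (hcon x)
      have h1 := hcon ((RCLike.I : 𝕜) • x)
      rw [re_I_smul, re_I_smul] at h1
      linarith
    exact this
  obtain ⟨x, hx⟩ := this
  obtain ⟨u, v', hu, hv, h1, h2, h3⟩ := t2_separation (X := ℝ) hx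
  exact ⟨evR x ⁻¹' u, evR x ⁻¹' v', hu.preimage (continuous_evR x), hv.preimage (continuous_evR x),
    h1, h2, h3.preimage _⟩

/-- Continuous real functionals are real parts of evaluations. -/
lemma exists_evR (f : StrongDual ℝ (DW 𝕜 X)) : ∃ x : X, ∀ w, f w = evR x w := by
  have h1 : f.toLinearMap ∈ Submodule.span ℝ (Set.range (evR (𝕜 := 𝕜) (X := X))) :=
    (LinearMap.mem_span_iff_continuous f.toLinearMap).2 f.continuous
  have h2 : Submodule.span ℝ (Set.range (evR (𝕜 := 𝕜) (X := X))) ≤
      { carrier := Set.range (evR (𝕜 := 𝕜) (X := X))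
        add_mem' := by
          rintro _ _ ⟨x, rfl⟩ ⟨y, rfl⟩
          refine ⟨x + y, ?_⟩
          ext w
          simp [evR_apply]
        zero_mem' := by
          refine ⟨0, ?_⟩
          ext w
          simp [evR_apply]
        smul_mem' := by
          rintro r _ ⟨x, rfl⟩
          refine ⟨(r : 𝕜) • x, ?_⟩
          ext w
          simp [evR_apply] } := by
    rw [Submodule.span_le]
    exact fun _ h => h
  obtain ⟨x, hx⟩ := h2 h1
  exact ⟨x, fun w => by rw [hx]; rfl⟩

lemma continuous_of_WeakDual :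
    Continuous fun w : WeakDual 𝕜 X => (toDW (WeakDual.toStrongDual w) : DW 𝕜 X) := by
  refine continuous_to_DW fun x => ?_
  exact RCLike.continuous_re.comp (WeakDual.eval_continuous x)

lemma continuous_to_WeakDual :
    Continuous fun w : DW 𝕜 X => (StrongDual.toWeakDual (ofDW w) : WeakDual 𝕜 X) := by
  refine WeakDual.continuous_of_continuous_eval fun x => ?_
  have h : (fun w : DW 𝕜 X => (StrongDual.toWeakDual (ofDW w)) x) =
      fun w => ((evR x w : ℝ) : 𝕜) + ((-evR ((RCLike.I : 𝕜) • x) w : ℝ) : 𝕜) * RCLike.I := by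
    funext w
    change ofDW w x = _
    rw [evR_apply, evR_apply, re_I_smul, neg_neg, RCLike.re_add_im]
  rw [h]
  exact ((RCLike.continuous_ofReal.comp (continuous_evR x)).add
    ((RCLike.continuous_ofReal.comp (continuous_evR _).neg).mul continuous_const))

lemma isCompact_ball (r : ℝ) :
    IsCompact (ofDW ⁻¹' Metric.closedBall (0 : StrongDual 𝕜 X) r : Set (DW 𝕜 X)) := by
  have h := (WeakDual.isCompact_closedBall (𝕜 := 𝕜) (0 : StrongDual 𝕜 X) r).image
    continuous_of_WeakDual
  convert! h using 1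
  ext w
  constructor
  · intro hw
    exact ⟨StrongDual.toWeakDual (ofDW w), hw, rfl⟩
  · rintro ⟨v, hv, rfl⟩
    exact hv

end Q99.IE
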