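import Mathlib

set_option autoImplicit false

/-!
The (I)-envelope of a subset of a dual Banach space.
-/

namespace Q99.IE

variable {𝕜 : Type*} [RCLike 𝕜] {X : Type*} [NormedAddCommGroup X] [NormedSpace 𝕜 X]

/-- The weak-star closure of a set of functionals. -/
def wstarClosure (S : Set (StrongDual 𝕜 X)) : Set (StrongDual 𝕜 X) :=
  {ξ | StrongDual.toWeakDual ξ ∈ closure (StrongDual.toWeakDual '' S : Set (WeakDual 𝕜 X))}

/-- The (I)-envelope of `A`: the intersection, over all ways of writing `A` as a countable union of
sets `S n`, of the norm closure of the convex hull of the union of the weak-star closed convex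
hulls of the sets `S n`. -/
def Ienv (A : Set (StrongDual 𝕜 X)) : Set (StrongDual 𝕜 X) :=
  ⋂ (S : ℕ → Set (StrongDual 𝕜 X)) (_ : A = ⋃ n, S n),
    closure (convexHull ℝ (⋃ n, wstarClosure (convexHull ℝ (S n))))

end Q99.IE
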