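import Mathlib
import Pool.Agent.Q99.IE.Core
import Pool.Agent.Q99.IE.Defs

set_option autoImplicit false

/-!
The (I)-envelope and its description by sequences.
-/

namespace Q99.IE

open Filter Topology

variable {𝕜 : Type*} [RCLike 𝕜] {X : Type*} [NormedAddCommGroup X] [NormedSpace 𝕜 X]

/-- Separation by a sequence. -/
def Sep (A : Set (StrongDual 𝕜 X)) (η : StrongDual 𝕜 X) : Prop :=
  ∃ x : ℕ → X, (∀ n, ‖x n‖ ≤ 1) ∧ ∃ s δ : ℝ, 0 < δ ∧ (∀ n, s + δ ≤ RCLike.re (η (x n))) ∧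
    ∀ ξ ∈ A, ∀ᶠ n in atTop, RCLike.re (ξ (x n)) ≤ s

lemma subset_wstarClosure (S : Set (StrongDual 𝕜 X)) : S ⊆ wstarClosure S := by
  intro ξ hξ
  have h : StrongDual.toWeakDual ξ ∈ (StrongDual.toWeakDual '' S : Set (WeakDual 𝕜 X)) :=
    Set.mem_image_of_mem _ hξ
  change StrongDual.toWeakDual ξ ∈ closure (StrongDual.toWeakDual '' S : Set (WeakDual 𝕜 X))
  exact subset_closure (X := WeakDual 𝕜 X) h

lemma wstarClosure_mono {S T : Set (StrongDual 𝕜 X)} (h : S ⊆ T) :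
    wstarClosure S ⊆ wstarClosure T := by
  intro ξ hξ
  have h1 : (StrongDual.toWeakDual '' S : Set (WeakDual 𝕜 X)) ⊆ StrongDual.toWeakDual '' T :=
    Set.image_mono h
  exact closure_mono h1 hξ

lemma wstar_le (S : Set (StrongDual 𝕜 X)) (x : X) (s : ℝ) (h : ∀ ξ ∈ S, RCLike.re (ξ x) ≤ s) :
    ∀ ξ ∈ wstarClosure S, RCLike.re (ξ x) ≤ s := by
  intro ξ hξ
  have hc : IsClosed {w : WeakDual 𝕜 X | RCLike.re (w x) ≤ s} :=
    isClosed_le (RCLike.continuous_re.comp (WeakDual.eval_continuous x)) continuous_const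
  have h1 : StrongDual.toWeakDual '' S ⊆ {w : WeakDual 𝕜 X | RCLike.re (w x) ≤ s} := by
    rintro _ ⟨ζ, hζ, rfl⟩
    exact h ζ hζ
  exact closure_minimal h1 hc hξ

lemma convex_le (x : X) (s : ℝ) : Convex ℝ {ξ : StrongDual 𝕜 X | RCLike.re (ξ x) ≤ s} := by
  intro ξ hξ ζ hζ a b ha hb hab
  simp only [Set.mem_ofPred_eq] at *
  have : RCLike.re ((a • ξ + b • ζ) x) = a * RCLike.re (ξ x) + b * RCLike.re (ζ x) := by
    rw [add_apply, map_add]
    simp [RCLike.smul_re]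
  rw [this]
  calc a * RCLike.re (ξ x) + b * RCLike.re (ζ x) ≤ a * s + b * s :=
        add_le_add (mul_le_mul_of_nonneg_left hξ ha) (mul_le_mul_of_nonneg_left hζ hb)
    _ = s := by rw [← add_mul, hab, one_mul]

/-- A separating sequence shows that `η` is not in the envelope. -/
theorem not_mem_of_sep {A : Set (StrongDual 𝕜 X)} {η : StrongDual 𝕜 X} (h : Sep A η) :
    η ∉ Ienv A := by
  obtain ⟨x, hx, s, δ, hδ, hη, hA⟩ := h
  intro hmem
  let S : ℕ → Set (StrongDual 𝕜 X) := fun m => {ξ ∈ A | ∀ n, m ≤ n → RCLike.re (ξ (x n)) ≤ s}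
  have hcov : A = ⋃ n, S n := by
    ext ξ
    simp only [Set.mem_iUnion]
    constructor
    · intro hξ
      obtain ⟨m, hm⟩ := (eventually_atTop).1 (hA ξ hξ)
      exact ⟨m, hξ, hm⟩
    · rintro ⟨m, hm⟩
      exact hm.1
  have h1 := Set.mem_iInter₂.1 hmem S hcov
  -- the hull is in the set of functionals eventually `≤ s`
  have h2 : convexHull ℝ (⋃ n, wstarClosure (convexHull ℝ (S n))) ⊆
      {ξ | ∃ m, ∀ n, m ≤ n → RCLike.re (ξ (x n)) ≤ s} := by
    refine convexHull_min ?_ ?_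
    · intro ξ hξ
      obtain ⟨m, hm⟩ := Set.mem_iUnion.1 hξ
      refine ⟨m, fun n hn => wstar_le _ (x n) s ?_ ξ hm⟩
      intro ζ hζ
      have h0 : S m ⊆ {ξ : StrongDual 𝕜 X | RCLike.re (ξ (x n)) ≤ s} := fun ξ hξ => hξ.2 n hn
      exact convexHull_min h0 (convex_le (x n) s) hζ
    · rintro ξ ⟨m, hm⟩ ζ ⟨m', hm'⟩ a b ha hb hab
      refine ⟨max m m', fun n hn => ?_⟩
      exact convex_le (x n) s (hm n ((le_max_left _ _).trans hn))
        (hm' n ((le_max_right _ _).trans hn)) ha hb hab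
  obtain ⟨ξ, hξ, hd⟩ := Metric.mem_closure_iff.1 h1 (δ / 2) (by positivity)
  obtain ⟨m, hm⟩ := h2 hξ
  have h3 := hm m le_rfl
  have h4 := hη m
  rw [dist_eq_norm] at hd
  have h5 : ‖(η - ξ) (x m)‖ ≤ δ / 2 := by
    calc ‖(η - ξ) (x m)‖ ≤ ‖η - ξ‖ * ‖x m‖ := (η - ξ).le_opNorm _
      _ ≤ δ / 2 * 1 := mul_le_mul hd.le (hx m) (norm_nonneg _) (by positivity)
      _ = δ / 2 := mul_one _
  have h6 : RCLike.re (η (x m)) - RCLike.re (ξ (x m)) ≤ δ / 2 := by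
    rw [← map_sub, ← sub_apply]
    exact (RCLike.re_le_norm _).trans h5
  linarith

end Q99.IE
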