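import Mathlib
import Pool.Agent.Q99.IE.Sep
import Pool.Agent.Q99.IE.DW

set_option autoImplicit false

/-!
Non-membership in the envelope gives a separating sequence.
-/

namespace Q99.IE

open Filter Topology Metric Pointwise

lemma isCompact_hull_union {E : Type*} [AddCommGroup E] [Module ℝ E] [TopologicalSpace E]
    [ContinuousAdd E] [ContinuousSMul ℝ E] {s t : Set E} (hs : IsCompact s) (ht : IsCompact t)
    (hsc : Convex ℝ s) (htc : Convex ℝ t) : IsCompact (convexHull ℝ (s ∪ t)) := by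
  rcases s.eq_empty_or_nonempty with rfl | hsn
  · rw [Set.empty_union, htc.convexHull_eq]; exact ht
  rcases t.eq_empty_or_nonempty with rfl | htn
  · rw [Set.union_empty, hsc.convexHull_eq]; exact hs
  rw [convexHull_union hsn htn, hsc.convexHull_eq, htc.convexHull_eq]
  have h : convexJoin ℝ s t =
      (fun p : ℝ × E × E => (1 - p.1) • p.2.1 + p.1 • p.2.2) '' (Set.Icc 0 1 ×ˢ s ×ˢ t) := by
    ext z
    simp only [convexJoin, Set.mem_iUnion, Set.mem_image, Set.mem_prod, Prod.exists,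
      segment_eq_image]
    constructor
    · rintro ⟨x, hx, y, hy, r, hr, rfl⟩
      exact ⟨r, x, y, ⟨hr, hx, hy⟩, rfl⟩
    · rintro ⟨r, x, y, ⟨hr, hx, hy⟩, rfl⟩
      exact ⟨x, hx, y, hy, r, hr, rfl⟩
  rw [h]
  exact (isCompact_Icc.prod (hs.prod ht)).image (by fun_prop)

variable {𝕜 : Type*} [RCLike 𝕜] {X : Type*} [NormedAddCommGroup X] [NormedSpace 𝕜 X]

/-- Separation of the point `η` from the `n`-th piece. -/
lemma exists_point {S : ℕ → Set (StrongDual 𝕜 X)} {η : StrongDual 𝕜 X} {ε : ℝ} (hε : 0 < ε)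
    (h : ∀ ξ ∈ convexHull ℝ (⋃ n, wstarClosure (convexHull ℝ (S n))), ε ≤ dist η ξ) (n : ℕ) :
    ∃ x : X, ‖x‖ ≤ 1 ∧ ∀ i ≤ n, ∀ ξ ∈ S i, ‖ξ‖ ≤ n →
      RCLike.re (ξ x) ≤ RCLike.re (η x) - ε / 2 := by
  set H := convexHull ℝ (⋃ n, wstarClosure (convexHull ℝ (S n))) with hH
  let HW : Set (DW 𝕜 X) := ofDW ⁻¹' H
  have hHW : Convex ℝ HW := (convex_convexHull ℝ _).linear_preimage ofDW
  let K : ℕ → Set (DW 𝕜 X) := fun i =>
    closure (ofDW ⁻¹' convexHull ℝ (S i ∩ closedBall 0 n))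
  have hKconv : ∀ i, Convex ℝ (K i) := fun i =>
    ((convex_convexHull ℝ (S i ∩ closedBall 0 n)).linear_preimage ofDW).closure
  have hKcomp : ∀ i, IsCompact (K i) := by
    intro i
    refine IsCompact.of_isClosed_subset (isCompact_ball (𝕜 := 𝕜) (X := X) n)
      isClosed_closure (closure_minimal ?_ (isCompact_ball n).isClosed)
    have h1 : convexHull ℝ (S i ∩ closedBall 0 n) ⊆ closedBall (0 : StrongDual 𝕜 X) n :=
      convexHull_min Set.inter_subset_right (convex_closedBall _ _)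
    exact Set.preimage_mono h1
  have hKH : ∀ i, K i ⊆ HW := by
    intro i w hw
    suffices h0 : ofDW w ∈ wstarClosure (convexHull ℝ (S i)) from
      (subset_convexHull ℝ (⋃ n, wstarClosure (convexHull ℝ (S n))))
        (Set.mem_iUnion.2 ⟨i, h0⟩)
    have h1 := image_closure_subset_closure_image (f := fun w : DW 𝕜 X =>
      (StrongDual.toWeakDual (ofDW w) : WeakDual 𝕜 X))
      (s := ofDW ⁻¹' convexHull ℝ (S i ∩ closedBall 0 n)) continuous_to_WeakDual
      (Set.mem_image_of_mem _ hw)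
    have h2 : (fun w : DW 𝕜 X => (StrongDual.toWeakDual (ofDW w) : WeakDual 𝕜 X)) ''
        (ofDW ⁻¹' convexHull ℝ (S i ∩ closedBall 0 n)) ⊆
        (StrongDual.toWeakDual '' convexHull ℝ (S i) : Set (WeakDual 𝕜 X)) := by
      rintro _ ⟨v, hv, rfl⟩
      exact Set.mem_image_of_mem _ (convexHull_mono Set.inter_subset_left hv)
    exact closure_mono h2 h1
  have hD : ∀ j : ℕ, ∃ D : Set (DW 𝕜 X), IsCompact D ∧ Convex ℝ D ∧ (∀ i ≤ j, K i ⊆ D) ∧
      D ⊆ HW := by
    intro j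
    induction j with
    | zero =>
      refine ⟨K 0, hKcomp 0, hKconv 0, ?_, hKH 0⟩
      intro i hi
      obtain rfl : i = 0 := by omega
      exact subset_rfl
    | succ j ih =>
      obtain ⟨D, h1, h2, h3, h4⟩ := ih
      refine ⟨convexHull ℝ (D ∪ K (j + 1)), isCompact_hull_union h1 (hKcomp _) h2 (hKconv _),
        convex_convexHull ℝ _, ?_, convexHull_min (Set.union_subset h4 (hKH _)) hHW⟩
      intro i hi
      rcases Nat.lt_or_ge i (j + 1) with hij | hij
      · exact (h3 i (by omega)).trans (Set.subset_union_left.trans (subset_convexHull ℝ _))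
      · obtain rfl : i = j + 1 := by omega
        exact Set.subset_union_right.trans (subset_convexHull ℝ _)
  obtain ⟨D, hD1, hD2, hD3, hD4⟩ := hD n
  have hSD : ∀ i ≤ n, ∀ ξ ∈ S i, ‖ξ‖ ≤ n → toDW ξ ∈ D := by
    intro i hi ξ hξ hn
    refine hD3 i hi (subset_closure ?_)
    have h1 : ξ ∈ convexHull ℝ (S i ∩ closedBall 0 n) :=
      subset_convexHull ℝ _ ⟨hξ, by simpa using hn⟩
    exact h1
  rcases D.eq_empty_or_nonempty with hemp | ⟨d₀, hd₀⟩
  · refine ⟨0, by simp, fun i hi ξ hξ hn => ?_⟩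
    have := hSD i hi ξ hξ hn
    rw [hemp] at this
    exact absurd this (Set.notMem_empty _)
  let B : Set (DW 𝕜 X) := ofDW ⁻¹' closedBall (0 : StrongDual 𝕜 X) (ε / 2)
  have hB1 : IsCompact B := isCompact_ball (ε / 2)
  have hB2 : Convex ℝ B := (convex_closedBall (0 : StrongDual 𝕜 X) (ε / 2)).linear_preimage ofDW
  have hT1 : IsClosed (D + B) := (hD1.add hB1).isClosed
  have hT2 : Convex ℝ (D + B) := hD2.add hB2
  have hη : toDW η ∉ D + B := by
    rintro ⟨d, hd, b, hb, hdb⟩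
    have h1 : ε ≤ dist η (ofDW d) := h _ (hD4 hd)
    have hdb' : d + b = toDW η := hdb
    have h2 : ofDW b = η - ofDW d := by
      have : ofDW (d + b) = η := by rw [hdb', of_to]
      rw [← this, map_add]; abel
    have h3 : ‖η - ofDW d‖ ≤ ε / 2 := by
      have : ofDW b ∈ closedBall (0 : StrongDual 𝕜 X) (ε / 2) := hb
      rw [h2] at this
      simpa using this
    rw [dist_eq_norm] at h1
    linarith
  obtain ⟨f, u, hf1, hf2⟩ := geometric_hahn_banach_closed_point hT2 hT1 hη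
  obtain ⟨x, hx⟩ := exists_evR f
  have hsup : ∀ d ∈ D, evR x d + ε / 2 * ‖x‖ < u := by
    intro d hd
    obtain ⟨g, hg1, hg2⟩ := exists_dual_vector'' 𝕜 x
    have hb : toDW (((ε / 2 : ℝ) : 𝕜) • g) ∈ B := by
      change ((ε / 2 : ℝ) : 𝕜) • g ∈ closedBall (0 : StrongDual 𝕜 X) (ε / 2)
      rw [mem_closedBall_zero_iff, norm_smul]
      have : ‖((ε / 2 : ℝ) : 𝕜)‖ = ε / 2 := by
        rw [RCLike.norm_ofReal, abs_of_pos (by positivity)]
      rw [this]
      nlinarith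
    have h1 := hf1 _ (Set.add_mem_add hd hb)
    rw [hx, map_add] at h1
    have h2 : evR x (toDW (((ε / 2 : ℝ) : 𝕜) • g)) = ε / 2 * ‖x‖ := by
      rw [evR_apply, of_to]
      change RCLike.re (((ε / 2 : ℝ) : 𝕜) * g x) = _
      rw [hg2, ← RCLike.ofReal_mul, RCLike.ofReal_re]
    rw [h2] at h1
    exact h1
  rw [hx, evR_apply, of_to] at hf2
  have hx0 : x ≠ 0 := by
    rintro rfl
    have h1 := hsup d₀ hd₀
    simp only [evR_apply, map_zero, norm_zero, mul_zero, add_zero] at h1 hf2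
    linarith
  have hxn : 0 < ‖x‖ := norm_pos_iff.2 hx0
  refine ⟨((‖x‖⁻¹ : ℝ) : 𝕜) • x, ?_, fun i hi ξ hξ hn => ?_⟩
  · rw [norm_smul, RCLike.norm_ofReal, abs_of_pos (by positivity), inv_mul_cancel₀ hxn.ne']
  · have h1 := hsup _ (hSD i hi ξ hξ hn)
    rw [evR_apply, of_to] at h1
    have key : ∀ ζ : StrongDual 𝕜 X, RCLike.re (ζ (((‖x‖⁻¹ : ℝ) : 𝕜) • x)) =
        ‖x‖⁻¹ * RCLike.re (ζ x) := by
      intro ζ
      rw [map_smul, smul_eq_mul, RCLike.re_ofReal_mul]
    rw [key, key]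
    have h2 : RCLike.re (ξ x) + ε / 2 * ‖x‖ ≤ RCLike.re (η x) := (h1.trans hf2).le
    have h3 := mul_le_mul_of_nonneg_left h2 (inv_nonneg.2 hxn.le)
    rw [mul_add] at h3
    have h4 : ‖x‖⁻¹ * (ε / 2 * ‖x‖) = ε / 2 := by field_simp
    linarith

/-- If `η` is not in the envelope of `A`, a sequence in the unit ball separates. -/
theorem sep_of_not_mem {A : Set (StrongDual 𝕜 X)} {η : StrongDual 𝕜 X} (h : η ∉ Ienv A) :
    Sep A η := by
  unfold Ienv at h
  rw [Set.mem_iInter₂] at h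
  push Not at h
  obtain ⟨S, hS, hη⟩ := h
  rw [Metric.mem_closure_iff] at hη
  push Not at hη
  obtain ⟨ε, hε, hd⟩ := hη
  choose x hx1 hx2 using exists_point hε hd
  -- extract a subsequence
  have hbd : ∀ n, RCLike.re (η (x n)) ∈ Set.Icc (-‖η‖) ‖η‖ := by
    intro n
    rw [Set.mem_Icc, ← abs_le]
    calc |RCLike.re (η (x n))| ≤ ‖η (x n)‖ := RCLike.abs_re_le_norm _
      _ ≤ ‖η‖ * ‖x n‖ := η.le_opNorm _
      _ ≤ ‖η‖ * 1 := mul_le_mul_of_nonneg_left (hx1 n) (norm_nonneg _)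
      _ = ‖η‖ := mul_one _
  obtain ⟨r, -, φ, hφ, hlim⟩ := isCompact_Icc.tendsto_subseq hbd
  have hev : ∀ᶠ k in atTop, |RCLike.re (η (x (φ k))) - r| < ε / 16 := by
    have := (Metric.tendsto_nhds.1 hlim) (ε / 16) (by positivity)
    filter_upwards [this] with k hk
    rwa [Real.dist_eq] at hk
  obtain ⟨N, hN⟩ := eventually_atTop.1 hev
  refine ⟨fun k => x (φ (N + k)), fun k => hx1 _, r - 7 * ε / 16, ε / 4, by positivity,
    fun k => ?_, fun ξ hξ => ?_⟩
  · have := abs_lt.1 (hN (N + k) (by omega))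
    linarith
  · rw [hS] at hξ
    obtain ⟨i, hi⟩ := Set.mem_iUnion.1 hξ
    obtain ⟨m, hm⟩ := exists_nat_ge ‖ξ‖
    filter_upwards [eventually_ge_atTop (max i m)] with k hk
    have h1 : k ≤ φ (N + k) := (by omega : k ≤ N + k).trans hφ.le_apply
    have h2 := hx2 (φ (N + k)) i ((le_max_left _ _).trans (hk.trans h1)) ξ hi
      (hm.trans (by exact_mod_cast (le_max_right i m).trans (hk.trans h1)))
    have h3 := abs_lt.1 (hN (N + k) (by omega))
    linarith

end Q99.IE
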